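import Pool.Agent.Helper74.NM.St

/-!
# Project NM, module RUN: soundness of the one-sided simulation
-/

set_option autoImplicit false

namespace Pool.Agent.Helper94.NM

open Pool.Agent.Helper74 Pool.Agent.Helper74.NM

private theorem badOut_ne_nil {W : Type} (rk : W → Bool) (σ : List (Lt W)) (h : BadOut rk σ) :
    σ ≠ [] := by
  obtain ⟨s, g, σ₁, rfl, _, _⟩ := h
  simp

private theorem cells_eq_nil {W : Type} (rk : W → Bool) (s : List W) (h : cells rk s = []) :
    s = [] := by
  cases s with
  | nil => rfl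
  | cons a s => simp [cells] at h

theorem hRUN (hBLK : StBLK) : StRUN := by
  intro α W rk l hl w
  have hbad : ∀ (w : List α) (σ : List (Lt W)), BadOut rk σ →
      ¬ Tr (P rk) op (w.flatMap fun a => blk rk (l a)) σ [] := by
    intro w
    induction w with
    | nil =>
      intro σ hσ ht
      rw [List.flatMap_nil, tr_nil] at ht
      exact badOut_ne_nil rk σ hσ ht
    | cons a w ih =>
      intro σ hσ ht
      rw [List.flatMap_cons, tr_append] at ht
      obtain ⟨ρ, h1, h2⟩ := ht
      exact ih ρ ((hBLK W rk (l a) (hl a)).2 σ ρ hσ h1) h2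
  induction w with
  | nil =>
    intro s ht
    rw [List.flatMap_nil, tr_nil] at ht
    rw [cells_eq_nil rk s ht]
    exact DR.Acc.nil
  | cons a w ih =>
    intro s ht
    rw [List.flatMap_cons, tr_append] at ht
    obtain ⟨ρ, h1, h2⟩ := ht
    rcases (hBLK W rk (l a) (hl a)).1 s ρ h1 with ⟨g, hg, s', rfl, rfl⟩ | hb
    · exact DR.Acc.step a g.1 g.2 s' w hg (ih _ h2)
    · exact absurd h2 (hbad w ρ hb)

end Pool.Agent.Helper94.NM
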